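import Mathlib
import Pool.Agent.H321R2.OSI.Lower
import Pool.Agent.H321R2.OSI.LowCoh
import Pool.Agent.H321R2.OSI.Unif

/-!
# Q1: constant failure probability does not give relative error `1 + O(ε)`

Definitions (in `Pool.Agent.H321R2.OSI.Defs`): `sqn`, `frob`, `IsMoorePenrose`, `pinv`, `rsvd`,
`bestErr`, `IsOSI`.

The example: `A = diag (√N, 1, …, 1)` and `r = 1`. The test matrix vanishes with probability `1/K`;
otherwise its rows are, up to a common factor and random signs, unit vectors which all make the small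
angle with cosine `s ~ K^(-3/2)` with the first one and are otherwise nearly orthogonal to each other.
-/

set_option autoImplicit false

namespace Pool.Agent.Results.MP_082b65_an.ConstantFailure

open MeasureTheory Matrix Finset Pool.Agent.H321R2.OSI

/-- The bound of Q1 for the failure probability `δ`, with the constant `C` and the success
probability `p₀`: for every `ε ∈ (0, 1)`, every real `n × d` matrix `A`, every `1 ≤ r ≤ min n d` and
every random `d × k` matrix `S` that is an oblivious subspace injection with dimension `r`, injectivity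
`1 - ε` and failure probability `δ`, there is an event `D` of probability at least `p₀` on which the
randomized SVD satisfies `‖A - Ã‖_F ≤ (1 + C ε) ‖A - A_r‖_F`. -/
def RelBound (δ C p₀ : ℝ) : Prop :=
  ∀ ε : ℝ, 0 < ε → ε < 1 →
    ∀ (n d k r : ℕ), 1 ≤ r → r ≤ n → r ≤ d → ∀ (A : Matrix (Fin n) (Fin d) ℝ)
      (W : Type) (_ : MeasurableSpace W) (P : Measure W) (_ : IsProbabilityMeasure P)
      (S : W → Matrix (Fin d) (Fin k) ℝ), IsOSI P S r (1 - ε) δ →
        ∃ D : Set W, MeasurableSet D ∧ p₀ ≤ P.real D ∧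
          ∀ w ∈ D, frob (A - rsvd A (S w)) ≤ (1 + C * ε) * bestErr A r

/-- The example, for `δ ≤ 1`. -/
theorem example_le (δ : ℝ) (hδ : 0 < δ) (hδ1 : δ ≤ 1) :
    ∃ (N k : ℕ) (A : Matrix (Fin N) (Fin N) ℝ) (W : Type) (_ : MeasurableSpace W) (P : Measure W)
      (_ : IsProbabilityMeasure P) (S : W → Matrix (Fin N) (Fin k) ℝ), 1 ≤ N ∧
      (∀ ε : ℝ, 0 ≤ ε → IsOSI P S 1 (1 - ε) δ) ∧
      ∀ w, (1 + δ ^ 3 / 1000) * bestErr A 1 < frob (A - rsvd A (S w)) := by
  set K : ℕ := ⌈2 / δ⌉₊ with hK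
  have hK1 : 2 / δ ≤ K := Nat.le_ceil _
  have hK2 : (K : ℝ) < 2 / δ + 1 := Nat.ceil_lt_add_one (by positivity)
  have hKr : (2 : ℝ) ≤ K := by
    refine le_trans ?_ hK1
    rw [le_div_iff₀ hδ]
    linarith
  have hKn : 2 ≤ K := by exact_mod_cast hKr
  have hne : NeZero K := ⟨by omega⟩
  have hK3 : (K : ℝ) * δ ≤ 3 := by
    have h1 : (K : ℝ) * δ ≤ (2 / δ + 1) * δ := mul_le_mul_of_nonneg_right hK2.le hδ.le
    have h2 : (2 / δ + 1) * δ = 2 + δ := by field_simp
    linarith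
  have hK0 : (0 : ℝ) < (K : ℝ) := by linarith
  set s : ℝ := Real.sqrt (1 / (2 * (K : ℝ) ^ 3)) with hs
  have hs2 : s ^ 2 = 1 / (2 * (K : ℝ) ^ 3) := Real.sq_sqrt (by positivity)
  have hs0 : 0 < s := Real.sqrt_pos.2 (by positivity)
  have hs4 : s ≤ 1 / 4 := by
    rw [hs, Real.sqrt_le_left (by norm_num)]
    rw [div_le_iff₀ (by positivity)]
    have : (2 : ℝ) ^ 3 ≤ (K : ℝ) ^ 3 := pow_le_pow_left₀ (by norm_num) hKr 3
    linarith
  have hsδ : δ ^ 3 / 54 ≤ s ^ 2 := by
    rw [hs2, le_div_iff₀ (by positivity)]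
    have h1 : ((K : ℝ) * δ) ^ 3 ≤ 3 ^ 3 := pow_le_pow_left₀ (by positivity) hK3 3
    have h2 : ((K : ℝ) * δ) ^ 3 = (K : ℝ) ^ 3 * δ ^ 3 := by ring
    nlinarith
  obtain ⟨p, hp1, hp⟩ := Nat.exists_infinite_primes (⌈8 / s ^ 2⌉₊ + 1)
  have hfact : Fact p.Prime := ⟨hp⟩
  have hp2 : 8 / s ^ 2 + 1 ≤ (p : ℝ) := by
    have h1 : 8 / s ^ 2 ≤ (⌈8 / s ^ 2⌉₊ : ℝ) := Nat.le_ceil _
    have h2 : ((⌈8 / s ^ 2⌉₊ + 1 : ℕ) : ℝ) ≤ (p : ℝ) := by exact_mod_cast hp1
    push_cast at h2
    linarith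
  have hp3 : 8 ≤ ((p : ℝ) - 1) * s ^ 2 := by
    have h1 : 8 / s ^ 2 ≤ (p : ℝ) - 1 := by linarith
    rwa [div_le_iff₀ (by positivity)] at h1
  obtain ⟨w, hw1, hw2, hw3⟩ := exists_lowcoh p
  have hs1 : s ^ 2 ≤ 1 := by nlinarith
  have hp0 : (0 : ℝ) < (p : ℝ) - 1 := by
    by_contra hcon
    push Not at hcon
    nlinarith [sq_nonneg s]
  have hcoh : 1 / ((p : ℝ) - 1) ≤ s / 2 := by
    rw [div_le_iff₀ hp0]
    nlinarith
  have hgd : ∀ j, gram (brow s w) j j = 1 := by
    intro j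
    refine Fin.cases ?_ (fun l => ?_) j
    · exact gram_brow_zero s w
    · rw [gram_brow_succ s hs1 w, hw1]
      ring
  have hgo : ∀ j l, j ≠ l → |gram (brow s w) j l| ≤ s := by
    intro j l
    refine Fin.cases ?_ (fun j' => ?_) j
    · refine Fin.cases ?_ (fun l' => ?_) l
      · intro h
        exact absurd rfl h
      · intro _
        rw [gram_brow_zero_succ, abs_of_pos hs0]
    · refine Fin.cases ?_ (fun l' => ?_) l
      · intro _
        rw [gram_symm, gram_brow_zero_succ, abs_of_pos hs0]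
      · intro h
        rw [gram_brow_succ s hs1 w]
        have h1 := hw2 j' l' (fun e => h (by rw [e]))
        have h2 : |∑ i, w j' i * w l' i| ≤ s / 2 := h1.trans hcoh
        have h3 := abs_le.1 h2
        have h4 : 0 ≤ 1 - s ^ 2 := by linarith
        rw [abs_le]
        constructor
        · nlinarith [h3.1, h3.2]
        · nlinarith [h3.1, h3.2]
  have hμK : 2 * s ^ 2 * (K : ℝ) ^ 3 ≤ 1 := by
    rw [hs2]
    apply le_of_eq
    field_simp
  have hδK : 2 ≤ δ * K := by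
    rw [div_le_iff₀ hδ] at hK1
    linarith
  have hpos3 : 0 < p ^ 3 := pow_pos hp.pos 3
  refine ⟨p ^ 3 + 1, p ^ 2 + 1, diagonal (avec (p ^ 3)), Smp K (p ^ 3 + 1), inferInstance,
    unif (Smp K (p ^ 3 + 1)), inferInstance, Smat K (brow s w), by omega, ?_, ?_⟩
  · intro ε hε
    exact isOSI_Smat hKn (brow s w) hgd s hgo hμK δ hδK ε hε
  · intro ω
    have hk : (((p ^ 2 : ℕ) : ℝ) + 1) ≤ ((p ^ 3 : ℕ) : ℝ) * s ^ 2 / 4 := by
      push_cast
      have h1 : (1 : ℝ) ≤ p := by exact_mod_cast hp.one_lt.le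
      have h2 : 8 ≤ (p : ℝ) * s ^ 2 := by nlinarith [sq_nonneg s]
      have h3 : (p : ℝ) ^ 2 * 8 ≤ (p : ℝ) ^ 2 * ((p : ℝ) * s ^ 2) :=
        mul_le_mul_of_nonneg_left h2 (by positivity)
      nlinarith
    have h1 := err_lower hKn s (by linarith) hs0 w hw3 hpos3 hk ω
    have h2 := bestErr_le (p ^ 3)
    set E := frob (diagonal (avec (p ^ 3)) - rsvd (diagonal (avec (p ^ 3)))
      (Smat K (brow s w) ω)) with hE
    have hE0 : 0 ≤ E := Real.sqrt_nonneg _
    have hNr : (0 : ℝ) < ((p ^ 3 : ℕ) : ℝ) := by exact_mod_cast hpos3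
    have hd3 : 0 < δ ^ 3 := by positivity
    have hd1 : δ ^ 3 ≤ 1 := pow_le_one₀ hδ.le hδ1
    refine lt_of_le_of_lt (mul_le_mul_of_nonneg_left h2 (by positivity)) ?_
    refine lt_of_pow_lt_pow_left₀ 2 hE0 (lt_of_lt_of_le ?_ h1)
    rw [mul_pow, Real.sq_sqrt hNr.le, mul_comm]
    apply mul_lt_mul_of_pos_left _ hNr
    nlinarith

/-- Failure probabilities can be increased. -/
lemma IsOSI.mono {W : Type} [MeasurableSpace W] {P : Measure W} {d k r : ℕ}
    {S : W → Matrix (Fin d) (Fin k) ℝ} {α δ δ' : ℝ} (h : IsOSI P S r α δ) (hδ : δ ≤ δ') :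
    IsOSI P S r α δ' :=
  ⟨h.measurable, h.integrable, h.isotropy, fun V hV => le_trans (by linarith) (h.injectivity V hV)⟩

/-- **Negative answer to Q1.** For every constant failure probability `δ > 0` (in particular
`δ = 1/100`), all constants `C` and all success probabilities `p₀ > 0` the bound fails. More
precisely, for `0 < δ ≤ 1` there are a square matrix `A` and a random matrix `S` which is an oblivious
subspace injection with dimension `1`, every injectivity `1 - ε ≤ 1` and failure probability `δ`,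
such that for *every* outcome the error of the randomized SVD is larger than
`(1 + δ ^ 3 / 1000) ‖A - A_1‖_F`. -/
theorem result :
    (∀ δ : ℝ, 0 < δ → ∀ C p₀ : ℝ, 0 < p₀ → ¬ RelBound δ C p₀) ∧
    (∀ δ : ℝ, 0 < δ → δ ≤ 1 →
      ∃ (N k : ℕ) (A : Matrix (Fin N) (Fin N) ℝ) (W : Type) (_ : MeasurableSpace W) (P : Measure W)
        (_ : IsProbabilityMeasure P) (S : W → Matrix (Fin N) (Fin k) ℝ), 1 ≤ N ∧
        (∀ ε : ℝ, 0 ≤ ε → IsOSI P S 1 (1 - ε) δ) ∧
        ∀ w, (1 + δ ^ 3 / 1000) * bestErr A 1 < frob (A - rsvd A (S w))) := by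
  refine ⟨?_, example_le⟩
  intro δ hδ C p₀ hp₀ H
  obtain ⟨N, k, A, W, mW, P, hP, S, hN, hS, hw⟩ := example_le (min δ 1) (lt_min hδ one_pos)
    (min_le_right _ _)
  set c : ℝ := (min δ 1) ^ 3 / 1000 with hc
  have hm : 0 < min δ 1 := lt_min hδ one_pos
  have hc0 : 0 < c := by positivity
  have hc1 : c ≤ 1 / 1000 := by
    have : (min δ 1) ^ 3 ≤ 1 := pow_le_one₀ hm.le (min_le_right _ _)
    rw [hc]
    linarith
  set ε : ℝ := c / (|C| + 1) with hε
  have hC1 : 0 < |C| + 1 := by positivity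
  have hε0 : 0 < ε := by positivity
  have hε1 : ε < 1 := by
    rw [hε, div_lt_one hC1]
    linarith [abs_nonneg C]
  have hCε : C * ε ≤ c := by
    calc C * ε ≤ (|C| + 1) * ε := by
          apply mul_le_mul_of_nonneg_right _ hε0.le
          linarith [le_abs_self C]
      _ = c := by rw [hε]; field_simp
  obtain ⟨D, _, hD2, hD3⟩ := H ε hε0 hε1 N N k 1 le_rfl hN hN A W mW P hP S
    (IsOSI.mono (hS ε hε0.le) (min_le_left _ _))
  have hDne : D.Nonempty := by
    rw [Set.nonempty_iff_ne_empty]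
    rintro rfl
    rw [measureReal_empty] at hD2
    linarith
  obtain ⟨w, hwD⟩ := hDne
  have h1 := hD3 w hwD
  have h2 := hw w
  have h3 : 0 ≤ bestErr A 1 := by
    unfold bestErr
    apply Real.sInf_nonneg
    rintro e ⟨B, _, rfl⟩
    exact Real.sqrt_nonneg _
  have h4 : (1 + C * ε) * bestErr A 1 ≤ (1 + c) * bestErr A 1 :=
    mul_le_mul_of_nonneg_right (by linarith) h3
  linarith

end Pool.Agent.Results.MP_082b65_an.ConstantFailure
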